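import Pool.Agent.Helper72.LSr.T2
import Pool.Agent.Helper72.LSr.Num

/-!
# LR-M1, LR-M2: `ml_L`, `ml_con`, `ml_main`, `ml_a`, `ml_num`
-/

set_option autoImplicit false

namespace Pool.Agent.Helper37.LSr

open Finset
open scoped Classical
open Pool.Agent.Helper72.LSr

variable {V : Type} {j : ℕ} {G : SimpleGraph V} {S : Finset V} {k A B : ℕ} {w : V}

lemma NH_subset (w : V) : NH G S w ⊆ S := by
  unfold NH
  exact filter_subset _ _

lemma mem_NH {w x : V} : x ∈ NH G S w ↔ x ∈ S ∧ ¬ G.Adj w x ∧ x ≠ w := by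
  unfold NH
  rw [mem_filter]

lemma Qf_subset_nb (f : V → ℕ) (u : V) : Qf G (NH G S w) f u ⊆ nb G S u := by
  intro x hx
  unfold Qf at hx
  rw [mem_filter] at hx
  rw [mem_nb]
  exact ⟨NH_subset w hx.1, hx.2.1⟩

lemma sg_nonneg (h : ML V j G S k A B w) {u : V} {R : Finset V} (hu : u ∈ S)
    (hR : R ⊆ nb G S u) : 0 ≤ (Pool.Agent.Helper72.LSr.sq k (A + 1) B G S) u R := by
  unfold Pool.Agent.Helper72.LSr.sq
  have h1 : 0 ≤ ∑ x ∈ R, (cv k (A + 1) B G S) u x := by
    apply sum_nonneg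
    intro z hz
    have hz' := hR hz
    rw [mem_nb] at hz'
    exact h.hc u hu z hz'.1 hz'.2
  have h2 := K_nonneg G R 2
  linarith

lemma card_nb_lt (h : ML V j G S k A B w) : (nb G S w).card < S.card := by
  apply card_lt_card
  refine ⟨nb_subset G S w, fun hsub => ?_⟩
  exact not_mem_nb_self G S w (hsub h.hw)

lemma Y_pos (h : ML V j G S k A B w) : 1 ≤ (Yv k (A + 1) B G S) w := by
  have h1 := h.hY
  have h2 : (0 : ℤ) ≤ (max (-(rS k (A + 1) B G S)) 0) := le_max_right _ _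
  linarith

theorem ml_L (h : ML V j G S k A B w) : 0 ≤ (Phi k A B (j + 2) G (nb G S w)) ∧ 0 ≤ (Phi k A B (j + 1) G (nb G S w)) := by
  have hE := h.hE w h.hw
  have hY := Y_pos h
  have hr := rS_nb G S k A B w
  have hg := gS_nb G S k A B w
  constructor
  · exact Phi_nonneg (fun m => h.th2 _ m (card_nb_lt h)) h.hk (by rw [hr]; linarith)
      (by rw [hg]; linarith)
  · exact Phi_nonneg (fun m => h.th1 _ m) h.hk (by rw [hr]; linarith) (by rw [hg]; linarith)

theorem ml_con (h : ML V j G S k A B w) {u : V} {R : Finset V} (hu : u ∈ S) (hR : R ⊆ nb G S u) :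
    0 ≤ (Dv k (A + 1) B G S) w * con k A B j G S u R + (es k A B (j + 1)) * ((Yv k (A + 1) B G S) w * (Dv k (A + 1) B G S) u - (Dv k (A + 1) B G S) w * (Yv k (A + 1) B G S) u) := by
  have hs := sg_nonneg h hu hR
  have hE := h.hE u hu
  have hD := h.hD u hu
  have hDw := h.hD w h.hw
  have hY := Y_pos h
  have hl := es_nonneg k A B (j + 1)
  have h1 := con_ge_min h.th1 h.hk hu hR hs (by linarith) (by linarith)
  have h2 := mul_le_mul_of_nonneg_left h1 (show (0 : ℤ) ≤ (Dv k (A + 1) B G S) w by linarith)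
  have hsl := h.hmax u hu
  have hsl' : 0 ≤ (Yv k (A + 1) B G S) w * (Dv k (A + 1) B G S) u - (Dv k (A + 1) B G S) w * (Yv k (A + 1) B G S) u := by linarith
  rcases le_total ((Pool.Agent.Helper72.LSr.sq k (A + 1) B G S) u R) ((Yv k (A + 1) B G S) u) with h3 | h3
  · rw [min_eq_left h3] at h2
    have h4 : 0 ≤ (Dv k (A + 1) B G S) w * ((es k A B (j + 1)) * (Pool.Agent.Helper72.LSr.sq k (A + 1) B G S) u R) := by positivity
    have h5 : 0 ≤ (es k A B (j + 1)) * ((Yv k (A + 1) B G S) w * (Dv k (A + 1) B G S) u - (Dv k (A + 1) B G S) w * (Yv k (A + 1) B G S) u) := mul_nonneg hl hsl'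
    linarith
  · rw [min_eq_right h3] at h2
    have h4 : 0 ≤ (es k A B (j + 1)) * ((Yv k (A + 1) B G S) w * (Dv k (A + 1) B G S) u) := by positivity
    nlinarith

theorem ml_main (h : ML V j G S k A B w) :
    (Dv k (A + 1) B G S) w * ((- Phi k (A + 1) B (j + 2) G S) + (Phi k A B (j + 2) G (nb G S w)) + (Phi k A B (j + 1) G (nb G S w))) ≤ (es k A B (j + 1)) * (Yv k (A + 1) B G S) w * (Dv k (A + 1) B G S w - Yv k (A + 1) B G S w - rS k (A + 1) B G S - K G (NH G S w) 2) ∧ 1 ≤ (es k A B (j + 1)) ∧ 1 + (max (-(rS k (A + 1) B G S)) 0) ≤ (Dv k (A + 1) B G S w - Yv k (A + 1) B G S w - rS k (A + 1) B G S - K G (NH G S w) 2) := by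
  obtain ⟨f, hf, _⟩ := exists_order (NH G S w) (fun _ => 0)
  have h1 := id_one' h.hw k A B j f hf
  have h2 : 0 ≤ ∑ u ∈ NH G S w, ((Dv k (A + 1) B G S) w * con k A B j G S u (Qf G (NH G S w) f u)
      + (es k A B (j + 1)) * ((Yv k (A + 1) B G S) w * (Dv k (A + 1) B G S) u - (Dv k (A + 1) B G S) w * (Yv k (A + 1) B G S) u)) :=
    sum_nonneg fun u hu => ml_con h (NH_subset w hu) (Qf_subset_nb f u)
  rw [sum_add_distrib, ← mul_sum, ← mul_sum] at h2
  have hfirst : (Dv k (A + 1) B G S) w * ((- Phi k (A + 1) B (j + 2) G S) + (Phi k A B (j + 2) G (nb G S w)) + (Phi k A B (j + 1) G (nb G S w))) ≤ (es k A B (j + 1)) * (Yv k (A + 1) B G S) w * (Dv k (A + 1) B G S w - Yv k (A + 1) B G S w - rS k (A + 1) B G S - K G (NH G S w) 2) := by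
    rw [← h1]
    linarith
  have hL := ml_L h
  have hl := es_nonneg k A B (j + 1)
  have hDw := h.hD w h.hw
  have hE := h.hE w h.hw
  have hY := Y_pos h
  have hQ := h.hQ
  have hrm : (0 : ℤ) ≤ (max (-(rS k (A + 1) B G S)) 0) := le_max_right _ _
  have h3 : (Dv k (A + 1) B G S) w * (1 + (es k A B (j + 1)) * (max (-(rS k (A + 1) B G S)) 0)) ≤ (es k A B (j + 1)) * (Yv k (A + 1) B G S) w * (Dv k (A + 1) B G S w - Yv k (A + 1) B G S w - rS k (A + 1) B G S - K G (NH G S w) 2) := by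
    refine le_trans ?_ hfirst
    apply mul_le_mul_of_nonneg_left _ (by linarith)
    linarith [hL.1, hL.2]
  have hlam : 1 ≤ (es k A B (j + 1)) := by
    by_contra hcon
    push Not at hcon
    have h0 : (es k A B (j + 1)) = 0 := by omega
    rw [h0] at h3
    linarith
  refine ⟨hfirst, hlam, ?_⟩
  by_contra hcon
  push Not at hcon
  have hZ : (Dv k (A + 1) B G S w - Yv k (A + 1) B G S w - rS k (A + 1) B G S - K G (NH G S w) 2) ≤ (max (-(rS k (A + 1) B G S)) 0) := by omega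
  have h4 : (es k A B (j + 1)) * (Yv k (A + 1) B G S) w * (Dv k (A + 1) B G S w - Yv k (A + 1) B G S w - rS k (A + 1) B G S - K G (NH G S w) 2) ≤ (es k A B (j + 1)) * (Yv k (A + 1) B G S) w * (max (-(rS k (A + 1) B G S)) 0) :=
    mul_le_mul_of_nonneg_left hZ (by positivity)
  have h5 : (es k A B (j + 1)) * (Yv k (A + 1) B G S) w * (max (-(rS k (A + 1) B G S)) 0) ≤ (es k A B (j + 1)) * (Dv k (A + 1) B G S) w * (max (-(rS k (A + 1) B G S)) 0) := by
    apply mul_le_mul_of_nonneg_right _ hrm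
    exact mul_le_mul_of_nonneg_left (by linarith) hl
  nlinarith

/-! ### LR-M2 -/

theorem ml_a (h : ML V j G S k A B w) {y y' : V} (hy : y ∈ NH G S w) (hy' : y' ∈ NH G S w)
    (hadj : G.Adj y y') :
    (Dv k (A + 1) B G S) w * (aa k A B j G S w (Qs G S w y ∪ Qs G S w y') + (- Phi k (A + 1) B (j + 2) G S) + (Phi k A B (j + 2) G (nb G S w)) + (Phi k A B (j + 1) G (nb G S w))) ≤ (es k A B (j + 1)) * (Yv k (A + 1) B G S) w * (Dv k (A + 1) B G S w - Yv k (A + 1) B G S w - rS k (A + 1) B G S - K G (NH G S w) 2) := by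
  obtain ⟨f, hf, hlast⟩ := exists_order_last (NH G S w) y' hy'
  have h1 := id_one' h.hw k A B j f hf
  have hQf : Qf G (NH G S w) f y' = nb G (NH G S w) y' := by
    ext x
    unfold Qf
    rw [mem_filter, mem_nb]
    constructor
    · rintro ⟨h1, h2, _⟩
      exact ⟨h1, h2⟩
    · rintro ⟨h1, h2⟩
      exact ⟨h1, h2, hlast x h1 h2.ne'⟩
  set F : V → ℤ := fun u => (Dv k (A + 1) B G S) w * con k A B j G S u (Qf G (NH G S w) f u)
      + (es k A B (j + 1)) * ((Yv k (A + 1) B G S) w * (Dv k (A + 1) B G S) u - (Dv k (A + 1) B G S) w * (Yv k (A + 1) B G S) u) with hF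
  have hFn : ∀ u ∈ NH G S w, 0 ≤ F u := fun u hu =>
    ml_con h (NH_subset w hu) (Qf_subset_nb f u)
  have hsum : ∑ u ∈ NH G S w, F u = (Dv k (A + 1) B G S) w * ∑ u ∈ NH G S w,
      con k A B j G S u (Qf G (NH G S w) f u)
      + (es k A B (j + 1)) * ∑ u ∈ NH G S w, ((Yv k (A + 1) B G S) w * (Dv k (A + 1) B G S) u - (Dv k (A + 1) B G S) w * (Yv k (A + 1) B G S) u) := by
    rw [hF, sum_add_distrib, ← mul_sum, ← mul_sum]
  have hFy : F y' ≤ ∑ u ∈ NH G S w, F u := single_le_sum hFn hy'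
  have h2 : (Dv k (A + 1) B G S) w * aa k A B j G S w (Qs G S w y ∪ Qs G S w y') ≤ F y' := by
    have h3 : F y' = (Dv k (A + 1) B G S) w * con k A B j G S y' (nb G (NH G S w) y')
      + (es k A B (j + 1)) * ((Yv k (A + 1) B G S) w * (Dv k (A + 1) B G S) y' - (Dv k (A + 1) B G S) w * (Yv k (A + 1) B G S) y') := by
      rw [hF]
      simp only
      rw [hQf]
    rw [h3, con_split G S h.hw k A B j hy hy' hadj.symm]
    have h4 := ml_con h (R := (nb G (NH G S w) y').erase y) (NH_subset w hy') (by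
      intro x hx
      have hx' := mem_of_mem_erase hx
      rw [mem_nb] at hx' ⊢
      exact ⟨NH_subset w hx'.1, hx'.2⟩)
    linarith
  have h5 : (es k A B (j + 1)) * (Yv k (A + 1) B G S) w * (Dv k (A + 1) B G S w - Yv k (A + 1) B G S w - rS k (A + 1) B G S - K G (NH G S w) 2) = (Dv k (A + 1) B G S) w * ((- Phi k (A + 1) B (j + 2) G S) + (Phi k A B (j + 2) G (nb G S w)) + (Phi k A B (j + 1) G (nb G S w))) + ∑ u ∈ NH G S w, F u := by
    rw [← h1, hsum]
    ring
  rw [h5]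
  linarith

lemma exists_edge (R : Finset V) (h : 1 ≤ K G R 2) : ∃ y ∈ R, ∃ y' ∈ R, G.Adj y y' := by
  by_contra hcon
  push Not at hcon
  have h1 := two_K_two G R
  have h2 : ∑ v ∈ R, ((nb G R v).card : ℤ) = 0 := by
    apply sum_eq_zero
    intro v hv
    have : nb G R v = ∅ := by
      ext x
      rw [mem_nb]
      constructor
      · rintro ⟨hx, hadj⟩
        exact absurd hadj (hcon v hv x hx)
      · intro hx
        exact absurd hx (notMem_empty x)
    rw [this]
    simp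
  rw [h2] at h1
  linarith

lemma card_Qe_le {y y' : V} (hy : y ∈ NH G S w) (hy' : y' ∈ NH G S w)
    (hadj : G.Adj y y') :
    ((Qs G S w y ∪ Qs G S w y').card : ℤ) ≤ ∑ z ∈ NH G S w, ((Qs G S w z).card : ℤ) := by
  have h3 : ∑ z ∈ ({y, y'} : Finset V), ((Qs G S w z).card : ℤ) ≤
      ∑ z ∈ NH G S w, ((Qs G S w z).card : ℤ) := by
    apply sum_le_sum_of_subset_of_nonneg
    · intro z hz
      rw [mem_insert, mem_singleton] at hz
      rcases hz with rfl | rfl
      · exact hy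
      · exact hy'
    · intro z _ _
      positivity
  rw [sum_pair hadj.ne] at h3
  have h4 : ((Qs G S w y ∪ Qs G S w y').card : ℤ) ≤ (Qs G S w y).card + (Qs G S w y').card := by
    exact_mod_cast card_union_le _ _
  linarith

theorem ml_num (h : ML V j G S k A B w) (hm : 1 ≤ (K G (NH G S w) 2)) :
    NumH k (MS k (A + 1) B S) ((Dv k (A + 1) B G S) w - (MS k (A + 1) B S)) ((Dv k (A + 1) B G S) w) ((Yv k (A + 1) B G S) w) (rS k (A + 1) B G S) (K G (NH G S w) 2) := by
  obtain ⟨h1, h2, h3⟩ := ml_main h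
  refine ⟨by exact_mod_cast h.hk, by ring, by linarith [h.hX], h.hY, h.hE w h.hw, h.hcase, hm,
    h3, ?_⟩
  obtain ⟨y, hy, y', hy', hadj⟩ := exists_edge _ hm
  have e4 := id_E4 G S h.hw k (A + 1) B
  have e5 := card_Qe_le hy hy' hadj
  have e6 := card_Q_union G S h.hw k (A + 1) B hy hy' hadj
  have e7 := h.hc y (NH_subset w hy) y' (NH_subset w hy') hadj
  have e8 : (0 : ℤ) ≤ ((nb G (NH G S w) y ∩ nb G (NH G S w) y').card : ℤ) := by positivity
  linarith

end Pool.Agent.Helper37.LSr
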