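import Pool.Agent.Helper72.LSr.T2
import Pool.Agent.Helper72.LSr.Num

/-!
# LR-M5: `ml_c_le`, `ml_c_add_le`, `ml_edge`
-/

set_option autoImplicit false

namespace Pool.Agent.Helper37.LSr

open Finset
open scoped Classical
open Pool.Agent.Helper72.LSr

variable {V : Type} {j : ℕ} {G : SimpleGraph V} {S : Finset V} {k A B : ℕ} {w : V}

lemma mem_Qs {w y x : V} : x ∈ Qs G S w y ↔ x ∈ S ∧ G.Adj w x ∧ ¬ G.Adj y x := by
  unfold Qs
  rw [mem_filter]

lemma sg_Qs_ge (h : ML V j G S k A B w) {y x : V} (hx : x ∈ Qs G S w y) :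
    (cv k (A + 1) B G S) w x ≤ (sq k (A + 1) B G S) w (Qs G S w y) := by
  unfold Pool.Agent.Helper72.LSr.sq
  have h1 : (cv k (A + 1) B G S) w x ≤ ∑ x ∈ Qs G S w y, (cv k (A + 1) B G S) w x := by
    apply single_le_sum (f := fun x => (cv k (A + 1) B G S) w x) _ hx
    intro z hz
    rw [mem_Qs] at hz
    exact h.hc w h.hw z hz.1 hz.2.1
  have h2 := K_nonneg G (Qs G S w y) 2
  linarith

lemma sg_Qs_nonneg (h : ML V j G S k A B w) (y : V) : 0 ≤ (sq k (A + 1) B G S) w (Qs G S w y) := by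
  unfold Pool.Agent.Helper72.LSr.sq
  have h1 : 0 ≤ ∑ x ∈ Qs G S w y, (cv k (A + 1) B G S) w x := by
    apply sum_nonneg
    intro z hz
    rw [mem_Qs] at hz
    exact h.hc w h.hw z hz.1 hz.2.1
  have h2 := K_nonneg G (Qs G S w y) 2
  linarith

/-- `c_wx ≤ G3` for `x ∈ Q_y`; and `c_wx + c_wx' ≤ G3` for `x ∈ Q_y`, `x' ∈ Q_y'`, `y ≠ y'` -/
theorem ml_c_le (h : ML V j G S k A B w) {y x : V} (hy : y ∈ NH G S w) (hx : x ∈ Qs G S w y) :
    (cv k (A + 1) B G S) w x ≤ ∑ y ∈ NH G S w, (sq k (A + 1) B G S) w (Qs G S w y) := by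
  refine (sg_Qs_ge h hx).trans ?_
  exact single_le_sum (f := fun y => (sq k (A + 1) B G S) w (Qs G S w y)) (fun z _ => sg_Qs_nonneg h z) hy

theorem ml_c_add_le (h : ML V j G S k A B w) {y x y' x' : V} (hy : y ∈ NH G S w)
    (hx : x ∈ Qs G S w y) (hy' : y' ∈ NH G S w) (hx' : x' ∈ Qs G S w y') (hne : y ≠ y') :
    (cv k (A + 1) B G S) w x + (cv k (A + 1) B G S) w x' ≤ ∑ y ∈ NH G S w, (sq k (A + 1) B G S) w (Qs G S w y) := by
  have h1 := sg_Qs_ge h hx
  have h2 := sg_Qs_ge h hx'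
  have h3 : ∑ z ∈ ({y, y'} : Finset V), (sq k (A + 1) B G S) w (Qs G S w z) ≤
      ∑ z ∈ NH G S w, (sq k (A + 1) B G S) w (Qs G S w z) := by
    apply sum_le_sum_of_subset_of_nonneg
    · intro z hz
      rw [mem_insert, mem_singleton] at hz
      rcases hz with rfl | rfl
      · exact hy
      · exact hy'
    · intro z _ _
      exact sg_Qs_nonneg h z
  rw [sum_pair hne] at h3
  linarith

/-- deletion of the edge `xx'` of `N_w`, with `c` chunks -/
theorem ml_edge (h : ML V j G S k A B w) {x x' : V} (hx : x ∈ nb G S w) (hx' : x' ∈ nb G S w)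
    (hadj : G.Adj x x') (c : ℕ) (hc : (k + 1 - (Dv k (A + 1) B G S) w) + (cv k (A + 1) B G S) w x' ≤ c * ((Dv k (A + 1) B G S) w - (Yv k (A + 1) B G S) w)) :
    ((Dv k (A + 1) B G S) w - 1 - (cv k (A + 1) B G S) w x') * (es k A B (j + 1)) - (es k (A + 1) B (j + 2) - K G (nb G S w ∩ nb G S x) (j + 1))
      - c * (Phi k A B (j + 1) G (nb G S w)) ≤ (Phi k A B (j + 2) G (nb G S w)) := by
  have hk := h.hk
  have hwS := h.hw
  have hlt : (nb G S w).card < S.card := by
    apply card_lt_card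
    refine ⟨nb_subset G S w, fun hsub => ?_⟩
    exact not_mem_nb_self G S w (hsub hwS)
  have hE := h.hE w hwS
  have hY := h.hY
  have hrm : (0 : ℤ) ≤ (max (-(rS k (A + 1) B G S)) 0) := le_max_right _ _
  have hr := rS_nb G S k A B w
  have hg := gS_nb G S k A B w
  have h1 := edge_bound (i := j + 1) (G := G) (S := nb G S w) (k := k) (A := A) (B := B)
    (fun m => h.th2 _ m hlt) hk hx hx' hadj (by rw [hr]; linarith) (by rw [hg]; linarith)
  rw [nb_nb, nb_nb] at h1
  -- the star at `x`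
  set Q' : Finset V := (nb G S w ∩ nb G S x) \ nb G S x' with hQ'
  have hsub : Q' ⊆ nb G (nb G S w) x := by
    rw [nb_nb, hQ']
    exact sdiff_subset
  have hcard : (Q'.card : ℤ) ≤ (k + 1 - (Dv k (A + 1) B G S) w) + (cv k (A + 1) B G S) w x' := by
    rw [← card_Z G S hwS k (A + 1) B x']
    have : Q' ⊆ nb G S w \ nb G S x' := by
      rw [hQ']
      exact sdiff_subset_sdiff inter_subset_left (Subset.refl _)
    exact_mod_cast card_le_card this
  have h2 := star_bound_chunks (i := j + 1) (G := G) (S := nb G S w) (k := k) (A := A) (B := B)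
    (fun m => h.th1 _ m) hk hx (by rw [hr]; linarith) (by rw [hg]; linarith) c Q' hsub
    (by rw [hr]; linarith)
  rw [nb_nb] at h2
  have h3 : (nb G S w ∩ nb G S x) \ Q' = (nb G S w ∩ nb G S x) ∩ (nb G S w ∩ nb G S x') := by
    ext z
    rw [hQ']
    simp only [mem_sdiff, mem_inter]
    tauto
  rw [h3] at h2
  have h4 := es_sA k A B (j + 1)
  rw [show j + 1 + 1 = j + 2 from rfl] at h1 h4
  have hl := es_nonneg k A B (j + 1)
  have h5 : (Q'.card : ℤ) * (es k A B (j + 1)) ≤ ((k + 1 - (Dv k (A + 1) B G S) w) + (cv k (A + 1) B G S) w x') * (es k A B (j + 1)) :=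
    mul_le_mul_of_nonneg_right hcard hl
  rw [h4]
  linarith

/-- `γ_w(Q) ≥ -κ` -/
theorem ml_gam (h : ML V j G S k A B w) {R : Finset V} (hR : R ⊆ nb G S w) :
    - (Phi k A B (j + 1) G (nb G S w)) ≤ gam k A B j G S w R := by
  have hs : 0 ≤ (sq k (A + 1) B G S) w R := by
    unfold Pool.Agent.Helper72.LSr.sq
    have h1 : 0 ≤ ∑ x ∈ R, (cv k (A + 1) B G S) w x := by
      apply sum_nonneg
      intro z hz
      have hz' := hR hz
      rw [mem_nb] at hz'
      exact h.hc w h.hw z hz'.1 hz'.2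
    have h2 := K_nonneg G R 2
    linarith
  have hE := h.hE w h.hw
  have hD := h.hD w h.hw
  have hrm : (0 : ℤ) ≤ (max (-(rS k (A + 1) B G S)) 0) := le_max_right _ _
  have hY := h.hY
  have h1 := con_ge_min h.th1 h.hk h.hw hR hs (by linarith) (by linarith)
  have h2 := gam_add G S k A B j h.hw hR
  have h3 : 0 ≤ (es k A B (j + 1)) * min ((sq k (A + 1) B G S) w R) ((Yv k (A + 1) B G S) w) :=
    mul_nonneg (es_nonneg _ _ _ _) (le_min hs (by linarith))
  linarith

/-- (U) -/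
theorem ml_U (h : ML V j G S k A B w) {x : V} (hx : x ∈ nb G S w) (hc : (cv k (A + 1) B G S) w x ≤ (Dv k (A + 1) B G S) w - (Yv k (A + 1) B G S) w - 1) :
    es k (A + 1) B (j + 2) - K G (nb G S w ∩ nb G S x) (j + 1) ≤ (Phi k A B (j + 1) G (nb G S w)) + (es k A B (j + 1)) * (cv k (A + 1) B G S) w x := by
  have hrm : (0 : ℤ) ≤ (max (-(rS k (A + 1) B G S)) 0) := le_max_right _ _
  have hY := h.hY
  have hcx : 0 ≤ (cv k (A + 1) B G S) w x := by
    rw [mem_nb] at hx
    exact h.hc w h.hw x hx.1 hx.2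
  have hQ : nb G S w \ nb G S x ⊆ nb G S w := sdiff_subset
  have e1 := x1_Phi' G S k A B j hQ
  have e2 := x1_gS G S k A B hQ
  have e3 := x1_rS G S k A B hQ
  have e4 := card_Z G S h.hw k (A + 1) B x
  rw [e4] at e1 e2 e3
  rw [aa_Z] at e1
  have h1 := Phi_nonneg (i := j + 1) (G := dst G w (nb G S w \ nb G S x))
    (S := insert w (nb G S w)) (k := k) (A := A) (B := B) (fun m => h.th1 _ m) h.hk
    (by rw [e3]; linarith) (by rw [e2]; linarith)
  rw [e1] at h1
  linarith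

end Pool.Agent.Helper37.LSr
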